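import Pool.Agent.E8helper48.TP.F

/-!
# Property (T) fails for every Dirichlet character

For every Dirichlet character `χ` modulo `k` every sufficiently large partial sum of its L-series has
a zero with real part greater than one.  Hence no Dirichlet character has property (T), and the
implication asked about in the question holds for every character.

Proof: by Kronecker approximation the values at vertical translates of `χ (n) n ^ (-it)` approach the
completely multiplicative function `g` with `g = 0` at the primes dividing `k`, `g (p₀) = i` at one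
prime `p₀` not dividing `k` and `g = 1` at all other primes.  For `g` one has
`∑_{n ≤ x} g n / n = R (log x + τ) + o(1)` with `Im τ ≠ 0`, and then the partial sum up to `N` has a
zero near `1 ∓ 2 π i / log N` which lies to the right of the line `Re s = 1` by
`2 π |Im τ| / (log N) ^ 2 (1 + o(1))`.
-/

set_option autoImplicit false

namespace Pool.Agent.Results.MP_ff1a2a_nt.NoPropertyTH48

/-- The partial sum `S_N(s, χ) = ∑_{n ≤ N} χ(n) n^{-s}` of the L-series of a Dirichlet character. -/
noncomputable def partialSum {k : ℕ} (χ : DirichletCharacter ℂ k) (N : ℕ) (s : ℂ) : ℂ :=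
  ∑ n ∈ Finset.Icc 1 N, χ (n : ZMod k) * (n : ℂ) ^ (-s)

/-- Property (T): no partial sum `S_N(s, χ)`, `N ≥ 1`, vanishes at a point `s` with `Re s > 1`. -/
def PropertyT {k : ℕ} (χ : DirichletCharacter ℂ k) : Prop :=
  ∀ N : ℕ, 1 ≤ N → ∀ s : ℂ, 1 < s.re → partialSum χ N s ≠ 0

theorem result (k : ℕ) [NeZero k] (χ : DirichletCharacter ℂ k) :
    (∃ N₀ : ℕ, ∀ N : ℕ, N₀ ≤ N → ∃ s : ℂ, 1 < s.re ∧ partialSum χ N s = 0) ∧
    ¬ PropertyT χ ∧
    (PropertyT χ → ∀ s : ℂ, 1 / 2 < s.re → χ.LFunction s ≠ 0) := by
  obtain ⟨N₀, h⟩ := Pool.Agent.E8helper48.TP.zeros χ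
  have hT : ¬ PropertyT χ := by
    intro hT
    obtain ⟨s, hs, h0⟩ := h (max N₀ 1) (le_max_left _ _)
    exact hT (max N₀ 1) (le_max_right _ _) s hs h0
  exact ⟨⟨N₀, h⟩, hT, fun h => absurd h hT⟩

end Pool.Agent.Results.MP_ff1a2a_nt.NoPropertyTH48
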